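import Mathlib
import Pool.Agent.helper60.MW.SpecC

set_option autoImplicit false

/-!
Moser's worm problem, row SCY: scaling.
-/

namespace Pool.Agent.MW

open MeasureTheory Set Pool.Agent.helper17.Worm Pointwise

theorem SCY : SCY_stmt := by
  intro x δ n Y hx0 hx1 hδ hn hY hf
  have hn' : (0 : ℝ) < n := by exact_mod_cast hn
  set lam : ℝ := (1 + 2 / n) / (1 - x) with hlam
  have h1x : 0 < 1 - x := by linarith
  have hlam1 : 1 ≤ lam := by
    rw [hlam, le_div_iff₀ h1x]
    have : 0 ≤ 2 / (n : ℝ) := by positivity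
    linarith
  have hlam0 : 0 < lam := by linarith
  refine ⟨lam • Y, hY.smul_of_ne_zero hlam0.ne', ?_, ?_⟩
  · rw [Measure.addHaar_smul, Complex.finrank_real_complex, abs_of_nonneg (by positivity)]
  · intro f hL
    obtain ⟨g, hg⟩ := hf (fun t => (lam⁻¹ : ℝ) • f t) (by
      intro s hs t ht
      rw [← smul_sub, norm_smul, Real.norm_eq_abs, abs_of_pos (inv_pos.mpr hlam0)]
      have h1 := hL s hs t ht
      have h2 : lam⁻¹ * ((1 + 2 / n) * |s - t|) = (1 - x) * |s - t| := by
        rw [hlam]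
        have : (1 + 2 / (n : ℝ)) ≠ 0 := by positivity
        field_simp
      rw [← h2]
      exact mul_le_mul_of_nonneg_left h1 (inv_pos.mpr hlam0).le)
    refine ⟨(g.1, lam • g.2), fun t ht => ?_⟩
    have h3 : mv (g.1, lam • g.2) (f t) = lam • mv g ((lam⁻¹ : ℝ) • f t) := by
      unfold mv
      simp only [Complex.real_smul]
      have hl : (lam : ℂ) ≠ 0 := Complex.ofReal_ne_zero.mpr hlam0.ne'
      push_cast
      field_simp
    intro z hz
    rw [h3, Metric.mem_closedBall, dist_eq_norm] at hz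
    refine Set.mem_smul_set.mpr ⟨lam⁻¹ • z, hg t ht ?_, ?_⟩
    · rw [Metric.mem_closedBall, dist_eq_norm]
      have h4 : lam⁻¹ • z - mv g ((lam⁻¹ : ℝ) • f t) =
          lam⁻¹ • (z - lam • mv g ((lam⁻¹ : ℝ) • f t)) := by
        rw [smul_sub, smul_smul, inv_mul_cancel₀ hlam0.ne', one_smul]
      rw [h4, norm_smul, Real.norm_eq_abs, abs_of_pos (inv_pos.mpr hlam0)]
      calc lam⁻¹ * ‖z - lam • mv g ((lam⁻¹ : ℝ) • f t)‖ ≤ 1 * δ := by
            refine mul_le_mul (inv_le_one_of_one_le₀ hlam1) hz (norm_nonneg _) zero_le_one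
        _ = δ := one_mul _
    · rw [smul_smul, mul_inv_cancel₀ hlam0.ne', one_smul]

end Pool.Agent.MW
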